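import Pool.Graph.R_seed8.Y189.DD.RC

/-!
Coefficients which are rational functions along an orbit of a rational map, and rational curves
through the points given by linear recurrences over such coefficients.
-/

set_option autoImplicit false

namespace Pool.Agent.H58.DR

open MvPolynomial Filter Pool.Agent.TH143 Pool.Agent.TH143.DE Pool.Agent.TH143.HE
open Pool.Agent.Y189.DD (RC)

variable {q : ℕ}

/-- Every polynomial which has infinitely many zeros on the sequence vanishes on the sequence. -/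
def GenT (t : ℕ → Fin q → ℂ) : Prop :=
  ∀ Q : MvPolynomial (Fin q) ℂ, (∀ᶠ m in atTop, eval (t m) Q ≠ 0) ∨ ∀ m, eval (t m) Q = 0

/-- Every polynomial relation between `t m` and `y m` which holds infinitely often is an identity in
`y m`. -/
def GenY (t : ℕ → Fin q → ℂ) (y : ℕ → ℂ) : Prop :=
  ∀ Q : MvPolynomial (Fin (q + 1)) ℂ,
    (∃ᶠ m in atTop, eval (Fin.snoc (t m) (y m) : Fin (q + 1) → ℂ) Q = 0) →
      ∀ m c, eval (Fin.snoc (t m) c : Fin (q + 1) → ℂ) Q = 0

theorem snoc_rename (v : Fin q → ℂ) (c : ℂ) (Q : MvPolynomial (Fin q) ℂ) :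
    eval (Fin.snoc v c : Fin (q + 1) → ℂ) (rename Fin.castSucc Q) = eval v Q := by
  rw [eval_rename]
  congr 2
  funext i
  rw [Function.comp_apply, Fin.snoc_castSucc]

theorem GenY.genT {t : ℕ → Fin q → ℂ} {y : ℕ → ℂ} (h : GenY t y) : GenT t := by
  intro Q
  by_cases h1 : ∀ᶠ m in atTop, eval (t m) Q ≠ 0
  · exact Or.inl h1
  · right
    intro m
    have h2 := h (rename Fin.castSucc Q) (fun h3 => h1 (by
      filter_upwards [h3] with m hm h0
      exact hm (by rw [snoc_rename, h0]))) m 0
    rwa [snoc_rename] at h2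

/-- the sequences which are given, from some index on, by rational functions of `t m` -/
def ratM (t : ℕ → Fin q → ℂ) : Subalgebra ℂ (ℕ → ℂ) where
  carrier := {f | ∃ P R : MvPolynomial (Fin q) ℂ, (∀ᶠ m in atTop, eval (t m) R ≠ 0) ∧
    ∀ᶠ m in atTop, f m = eval (t m) P / eval (t m) R}
  mul_mem' := by
    rintro f g ⟨P, R, hR, hf⟩ ⟨P', R', hR', hg⟩
    refine ⟨P * P', R * R', ?_, ?_⟩
    · filter_upwards [hR, hR'] with m h1 h2
      rw [map_mul]
      exact mul_ne_zero h1 h2
    · filter_upwards [hf, hg] with m h1 h2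
      rw [Pi.mul_apply, h1, h2, map_mul, map_mul, div_mul_div_comm]
  add_mem' := by
    rintro f g ⟨P, R, hR, hf⟩ ⟨P', R', hR', hg⟩
    refine ⟨P * R' + R * P', R * R', ?_, ?_⟩
    · filter_upwards [hR, hR'] with m h1 h2
      rw [map_mul]
      exact mul_ne_zero h1 h2
    · filter_upwards [hf, hg, hR, hR'] with m h1 h2 h3 h4
      rw [Pi.add_apply, h1, h2, div_add_div _ _ h3 h4]
      simp only [map_add, map_mul]
  algebraMap_mem' := fun c => ⟨C c, 1, Eventually.of_forall fun m => by
      rw [map_one]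
      exact one_ne_zero, Eventually.of_forall fun m => by
    rw [eval_C, map_one, div_one]
    rfl⟩

theorem polyM_mem (t : ℕ → Fin q → ℂ) (P : MvPolynomial (Fin q) ℂ) :
    (fun m => eval (t m) P) ∈ ratM t :=
  ⟨P, 1, Eventually.of_forall fun m => by
    rw [map_one]
    exact one_ne_zero, Eventually.of_forall fun m => by rw [map_one, div_one]⟩

theorem ratM_congr {t : ℕ → Fin q → ℂ} {f g : ℕ → ℂ} (hf : f ∈ ratM t)
    (h : ∀ᶠ m in atTop, g m = f m) : g ∈ ratM t := by
  obtain ⟨P, R, hR, hf⟩ := hf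
  refine ⟨P, R, hR, ?_⟩
  filter_upwards [h, hf] with m h1 h2
  rw [h1, h2]

theorem ratM_inv {t : ℕ → Fin q → ℂ} (ht : GenT t) {f : ℕ → ℂ} (hf : f ∈ ratM t) :
    (fun m => (f m)⁻¹) ∈ ratM t := by
  obtain ⟨P, R, hR, hf⟩ := hf
  rcases ht P with hP | hP
  · refine ⟨R, P, hP, ?_⟩
    filter_upwards [hf] with m hm
    rw [hm, inv_div]
  · refine ratM_congr (ratM t).zero_mem ?_
    filter_upwards [hf] with m hm
    rw [hm, hP, zero_div, inv_zero]
    rfl

theorem aeval_seqs {σ : Type} (z : ℕ → σ → ℂ) (P : MvPolynomial σ ℂ) :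
    (aeval (fun i m => z m i) P : ℕ → ℂ) = fun m => eval (z m) P := by
  funext m
  have h7 := MvPolynomial.comp_aeval_apply (f := fun i m => z m i)
    (Pi.evalAlgHom ℂ (fun _ : ℕ => ℂ) m) P
  have h8 : (aeval (fun i m => z m i) P : ℕ → ℂ) m = aeval (fun i => z m i) P := h7
  rw [h8, MvPolynomial.aeval_eq_eval]

theorem ratM_field {t : ℕ → Fin q → ℂ} (ht : GenT t) (A R : Fin q → MvPolynomial (Fin q) ℂ)
    (hR : ∀ m i, eval (t m) (R i) ≠ 0)
    (hA : ∀ m i, t (m + 1) i = eval (t m) (A i) / eval (t m) (R i)) : CoefField (ratM t) := by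
  have hsh : ∀ P : MvPolynomial (Fin q) ℂ, (fun m => eval (t (m + 1)) P) ∈ ratM t := by
    intro P
    have h1 : ∀ i, (fun m => t (m + 1) i) ∈ ratM t := fun i =>
      ⟨A i, R i, Eventually.of_forall fun m => hR m i, Eventually.of_forall fun m => hA m i⟩
    have h2 := (aeval (fun i => (⟨_, h1 i⟩ : ratM t)) P : ratM t).2
    have h3 := MvPolynomial.comp_aeval_apply (f := fun i => (⟨_, h1 i⟩ : ratM t)) (ratM t).val P
    change ((aeval (fun i => (⟨_, h1 i⟩ : ratM t)) P : ratM t) : ℕ → ℂ) = _ at h3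
    rw [h3] at h2
    have h4 := aeval_seqs (fun m i => t (m + 1) i) P
    change (aeval (fun i m => t (m + 1) i) P : ℕ → ℂ) ∈ ratM t at h2
    rw [h4] at h2
    exact h2
  refine ⟨⟨?_, ?_⟩, fun f hf => ratM_inv ht hf⟩
  · rintro f ⟨P, Q, hQ, hf⟩
    refine ratM_congr ((ratM t).mul_mem (hsh P) (ratM_inv ht (hsh Q))) ?_
    filter_upwards [eventually_shift hf 1] with m hm
    rw [hm, Pi.mul_apply, div_eq_mul_inv]
  · rintro f ⟨P, Q, hQ, hf⟩
    rcases ht P with hP | hP
    · right
      filter_upwards [hf, hQ, hP] with m hm h1 h2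
      rw [hm]
      exact div_ne_zero h2 h1
    · left
      filter_upwards [hf] with m hm
      rw [hm, hP, zero_div]

section Trdeg

variable {I : Ideal (ℕ → ℂ)} {K : Type} [Field K] [Algebra ((ℕ → ℂ) ⧸ I) K] [Algebra ℂ K]
  [IsScalarTower ℂ ((ℕ → ℂ) ⧸ I) K]

/-- the class of a sequence -/
noncomputable def cls (I : Ideal (ℕ → ℂ)) (K : Type) [Field K] [Algebra ((ℕ → ℂ) ⧸ I) K]
    [Algebra ℂ K] [IsScalarTower ℂ ((ℕ → ℂ) ⧸ I) K] : (ℕ → ℂ) →ₐ[ℂ] K :=
  (IsScalarTower.toAlgHom ℂ ((ℕ → ℂ) ⧸ I) K).comp (mk' I)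

theorem cls_apply (f : ℕ → ℂ) : cls I K f = algebraMap ((ℕ → ℂ) ⧸ I) K (mk' I f) := rfl

theorem cls_eq (hI : EZ ≤ I) {f g : ℕ → ℂ} (h : ∀ᶠ m in atTop, f m = g m) :
    cls I K f = cls I K g := by
  rw [cls_apply, cls_apply]
  congr 1
  rw [← sub_eq_zero, ← map_sub]
  refine mk'_zero.2 (hI ?_)
  rw [mem_EZ]
  filter_upwards [h] with m hm
  rw [Pi.sub_apply, hm, sub_self]

theorem cls_ne (hI : EZ ≤ I) {f : ℕ → ℂ} (h : ∀ᶠ m in atTop, f m ≠ 0) : cls I K f ≠ 0 := by
  intro h0
  have h1 : cls I K f * cls I K (fun m => (f m)⁻¹) = 1 := by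
    rw [← map_mul, ← map_one (cls I K)]
    apply cls_eq hI
    filter_upwards [h] with m hm
    rw [Pi.mul_apply, Pi.one_apply, mul_inv_cancel₀ hm]
  rw [h0, zero_mul] at h1
  exact zero_ne_one h1

theorem cls_eval {σ : Type} (z : ℕ → σ → ℂ) (P : MvPolynomial σ ℂ) :
    aeval (fun i => cls I K fun m => z m i) P = cls I K fun m => eval (z m) P := by
  have h1 := MvPolynomial.comp_aeval_apply (f := fun i m => z m i) (cls I K) P
  rw [← h1, aeval_seqs]

theorem eval_option {σ E : Type} [Field E] [Algebra ℂ E] (f : σ → E) (a : E)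
    (F : MvPolynomial (Option σ) ℂ) :
    Polynomial.eval₂ ((aeval f : MvPolynomial σ ℂ →ₐ[ℂ] E) : MvPolynomial σ ℂ →+* E) a
      (optionEquivLeft ℂ σ F) = aeval (fun o : Option σ => o.elim a f) F := by
  induction F using MvPolynomial.induction_on with
  | C c => simp
  | add p p' h1 h2 => rw [map_add, Polynomial.eval₂_add, h1, h2, map_add]
  | mul_X p o h =>
    rw [map_mul, Polynomial.eval₂_mul, h, map_mul]
    rcases o with _ | o <;> simp

/-- **A number which is independent of the orbit is transcendental over the coefficients.** -/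
theorem transcendental_cf {t : ℕ → Fin q → ℂ} {y : ℕ → ℂ} (hg : GenY t y)
    (hB : CoefField (ratM t)) (hI : EZ ≤ I) (t0 : ℕ) :
    Transcendental (cf hB hI K) (cls I K fun m => y (m + t0)) := by
  classical
  intro hcon
  set E := cf hB hI K with hE
  let τ : Fin q → E := fun i => ⟨cls I K fun m => t m i, _, by
    have h1 := polyM_mem t (X i)
    simp only [eval_X] at h1
    exact h1, rfl⟩
  have hval : ∀ P : MvPolynomial (Fin q) ℂ,
      ((aeval τ P : E) : K) = cls I K fun m => eval (t m) P := by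
    intro P
    rw [← cls_eval]
    exact MvPolynomial.comp_aeval_apply (f := τ) E.val P
  have hmem : ∀ P : MvPolynomial (Fin q) ℂ,
      (aeval τ P : E) ∈ Algebra.adjoin ℂ (Set.range τ) := by
    intro P
    rw [Algebra.adjoin_range_eq_range_aeval]
    exact ⟨P, rfl⟩
  have halg : Algebra.IsAlgebraic (Algebra.adjoin ℂ (Set.range τ)) E := by
    refine ⟨fun z => ?_⟩
    obtain ⟨z, b, hb, hz⟩ := z
    obtain ⟨P, R, hR, hf⟩ := hb
    have hR0 : (aeval τ R : E) ≠ 0 := by
      intro h0
      have h1 := hval R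
      rw [h0] at h1
      exact cls_ne hI hR h1.symm
    refine ⟨Polynomial.C ⟨aeval τ R, hmem R⟩ * Polynomial.X - Polynomial.C ⟨aeval τ P, hmem P⟩,
      ?_, ?_⟩
    · intro h0
      have h1 := congrArg (fun p => Polynomial.coeff p 1) h0
      simp only [Polynomial.coeff_sub, Polynomial.coeff_C_mul, Polynomial.coeff_X_one, mul_one,
        Polynomial.coeff_C_succ, sub_zero, Polynomial.coeff_zero] at h1
      exact hR0 (congrArg Subtype.val h1)
    · rw [map_sub, map_mul, Polynomial.aeval_C, Polynomial.aeval_C, Polynomial.aeval_X,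
        sub_eq_zero]
      apply Subtype.ext
      change ((aeval τ R : E) : K) * z = ((aeval τ P : E) : K)
      rw [hval, hval, hz, ← cls_apply, ← map_mul]
      apply cls_eq hI
      filter_upwards [hf, hR] with m h1 h2
      rw [Pi.mul_apply, h1, mul_div_cancel₀ _ h2]
  obtain ⟨u, -, hu, hb⟩ := exists_isTranscendenceBasis_between (R := ℂ) (A := E) ∅ (Set.range τ)
    (Set.empty_subset _) (algebraicIndependent_empty_type)
  choose ι hι using fun w : u => hu w.2
  have hfin : Finite u := (Set.finite_range τ).subset hu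
  let g : Option u → Fin (q + 1) := fun o => o.elim (Fin.last q) fun w => (ι w).castSucc
  have hQe : ∀ (F : MvPolynomial (Option u) ℂ) (v : Fin q → ℂ) (c : ℂ),
      eval (Fin.snoc v c : Fin (q + 1) → ℂ) (rename g F) =
        eval (fun o : Option u => o.elim c fun w => v (ι w)) F := by
    intro F v c
    rw [eval_rename]
    congr 2
    funext o
    rcases o with _ | w
    · change (Fin.snoc v c : Fin (q + 1) → ℂ) (Fin.last q) = c
      rw [Fin.snoc_last]
    · change (Fin.snoc v c : Fin (q + 1) → ℂ) (ι w).castSucc = v (ι w)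
      rw [Fin.snoc_castSucc]
  let z : Option u → K := fun o => cls I K fun m =>
    (o.elim (y (m + t0)) fun w => t (m + t0) (ι w) : ℂ)
  have hz : AlgebraicIndependent ℂ z := by
    rw [algebraicIndependent_iff]
    intro F hF
    have h1 : aeval z F = cls I K fun m =>
        eval (fun o : Option u => o.elim (y (m + t0)) fun w => t (m + t0) (ι w)) F :=
      cls_eval (fun m (o : Option u) => o.elim (y (m + t0)) fun w => t (m + t0) (ι w)) F
    rw [h1] at hF
    have h2 : ∃ᶠ m in atTop,
        eval (Fin.snoc (t m) (y m) : Fin (q + 1) → ℂ) (rename g F) = 0 := by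
      intro h3
      apply cls_ne (K := K) hI _ hF
      filter_upwards [eventually_shift h3 t0] with m hm h4
      exact hm (by rw [hQe, h4])
    have h3 := hg _ h2
    have h4 : ∀ c : ℂ, aeval (fun o : Option u => o.elim (algebraMap ℂ E c) fun w => (w : E)) F =
        0 := by
      intro c
      refine (map_eq_zero_iff E.val E.val.injective).1 ?_
      rw [MvPolynomial.comp_aeval_apply]
      have h5 : (fun o : Option u => E.val (o.elim (algebraMap ℂ E c) fun w => (w : E))) =
          fun o => cls I K fun m => (o.elim c fun w => t m (ι w) : ℂ) := by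
        funext o
        rcases o with _ | w
        · change E.val (algebraMap ℂ E c) = cls I K fun _ => c
          rw [AlgHom.commutes]
          exact ((cls I K).commutes c).symm
        · change E.val (w : E) = cls I K fun m => t m (ι w)
          rw [← hι w]
          rfl
      rw [h5, cls_eval]
      have h6 : (fun m => eval (fun o : Option u => (o.elim c fun w => t m (ι w) : ℂ)) F) =
          (0 : ℕ → ℂ) := by
        funext m
        rw [← hQe, h3]
        rfl
      rw [h6, map_zero]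
    have h5 : (optionEquivLeft ℂ u F).map
        ((aeval fun w : u => (w : E) : MvPolynomial u ℂ →ₐ[ℂ] E) : MvPolynomial u ℂ →+* E) =
          0 := by
      apply Polynomial.eq_zero_of_infinite_isRoot
      refine Set.Infinite.mono (s := Set.range (algebraMap ℂ E)) ?_
        (Set.infinite_range_of_injective (algebraMap ℂ E).injective)
      rintro _ ⟨c, rfl⟩
      change Polynomial.eval _ _ = 0
      rw [Polynomial.eval_map, eval_option, h4]
    have h6 : optionEquivLeft ℂ u F = 0 := by
      apply Polynomial.map_injective _ (algebraicIndependent_iff_injective_aeval.1 hb.1)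
      rw [Polynomial.map_zero]
      exact h5
    exact (map_eq_zero_iff _ (optionEquivLeft ℂ u).injective).1 h6
  have hcon' : ∀ i, IsAlgebraic E (z i) := by
    intro o
    rcases o with _ | w
    · exact hcon
    · have h2 : z (some w) ∈ E := by
        refine ⟨fun m => t (m + t0) (ι w), ?_, rfl⟩
        have h3 := polyM_mem t (X (ι w))
        simp only [eval_X] at h3
        exact hB.shift' h3 t0
      exact isAlgebraic_algebraMap (⟨_, h2⟩ : E)
  let F : IntermediateField E K := algebraicClosure E K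
  have halg' : Algebra.IsAlgebraic E F := algebraicClosure.isAlgebraic E K
  have h0 : Algebra.trdeg E F = 0 := trdeg_eq_zero
  have h1 := trdeg_add_eq ℂ E (A := F)
  rw [h0, add_zero] at h1
  have hmem' : ∀ i, z i ∈ F := fun i => mem_algebraicClosure_iff.2 (hcon' i)
  have h2 : AlgebraicIndependent ℂ (fun i => (⟨z i, hmem' i⟩ : F)) := by
    have h3 : AlgebraicIndependent ℂ (((F.val.restrictScalars ℂ) : F →ₐ[ℂ] K) ∘
        fun i => (⟨z i, hmem' i⟩ : F)) := hz
    exact AlgebraicIndependent.of_comp _ h3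
  have h3 := h2.cardinalMk_le_trdeg
  rw [← h1, ← hb.cardinalMk_eq_trdeg] at h3
  obtain ⟨k, hk⟩ := Cardinal.lt_aleph0.1 (Cardinal.lt_aleph0_of_finite u)
  rw [Cardinal.mk_option, hk] at h3
  have h4 : k + 1 ≤ k := by exact_mod_cast h3
  omega

end Trdeg

variable {n : ℕ}

/-- **Points given by linear recurrences along an orbit of a rational map.** If they are not
algebraic over the orbit then there are rational curves through some of them. -/
theorem seq_rc {t : ℕ → Fin q → ℂ} {A R : Fin q → MvPolynomial (Fin q) ℂ}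
    (hR : ∀ m i, eval (t m) (R i) ≠ 0)
    (hA : ∀ m i, t (m + 1) i = eval (t m) (A i) / eval (t m) (R i))
    {s : Set (MvPolynomial (Fin (n + 1)) ℂ)}
    (hs : ∀ G ∈ s, ∃ d, G.IsHomogeneous d) {x : ℕ → Fin (n + 1) → ℂ}
    {r : ℕ} {P : Fin (n + 1) → ℕ → MvPolynomial (Fin q) ℂ}
    (hP : ∀ j, ∃ k ≤ r, ∃ m, eval (t m) (P j k) ≠ 0)
    (hrec : ∀ j m, ∑ k ∈ Finset.range (r + 1), eval (t m) (P j k) * x (m + k) j = 0)
    (hX : ∀ m, ∀ G ∈ s, eval (x m) G = 0) {u v : Fin (n + 1)}
    (hgen : GenY t fun m => x m u / x m v) :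
    ∃ m, RC s (x m) := by
  classical
  have ht := hgen.genT
  have hB := ratM_field ht A R hR hA
  have hv : ∀ᶠ m in atTop, eval (x m) (X v : MvPolynomial (Fin (n + 1)) ℂ) ≠ 0 := by
    by_contra hcon
    have h1 : ∃ᶠ m in atTop, eval (Fin.snoc (t m) (x m u / x m v) : Fin (q + 1) → ℂ)
        (X (Fin.last q)) = 0 := by
      intro h2
      apply hcon
      filter_upwards [h2] with m hm
      rw [eval_X, Fin.snoc_last] at hm
      rw [eval_X]
      intro h0
      apply hm
      rw [h0, div_zero]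
    have h2 := hgen _ h1 0 1
    rw [eval_X, Fin.snoc_last] at h2
    exact one_ne_zero h2
  have hlin : ∀ j, LinRec (ratM t) fun m => x m j := by
    intro j
    obtain ⟨k0, hk0, m0, hm0⟩ := hP j
    refine ⟨r, fun k m => eval (t m) (P j k), fun k => polyM_mem t (P j k),
      ⟨k0, hk0, fun h0 => ?_⟩, Eventually.of_forall fun m => hrec j m⟩
    rcases ht (P j k0) with h1 | h1
    · obtain ⟨m, h1, h2⟩ := (h0.and h1).exists
      exact h2 h1
    · exact hm0 (h1 m0)
  obtain ⟨t0, h⟩ := exists_rc hB hlin (isHomogeneous_X ℂ v) hv hs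
    (fun G hG => Eventually.of_forall fun m => hX m G hG)
  have hne : (EZ : Ideal (ℕ → ℂ)) ≠ ⊤ := by
    intro h0
    have h1 : (1 : ℕ → ℂ) ∈ EZ := by
      rw [h0]
      exact Submodule.mem_top
    rw [mem_EZ] at h1
    obtain ⟨m, hm⟩ := h1.exists
    exact one_ne_zero hm
  obtain ⟨J, hJm, hJ⟩ := Ideal.exists_le_maximal _ hne
  have hJp : J.IsPrime := hJm.isPrime
  have hdom : IsDomain ((ℕ → ℂ) ⧸ J) := Ideal.Quotient.isDomain J
  have htr : Transcendental (cf hB hJ (FractionRing ((ℕ → ℂ) ⧸ J)))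
      (algebraMap ((ℕ → ℂ) ⧸ J) (FractionRing ((ℕ → ℂ) ⧸ J))
        (mk' J fun m => x (m + t0) u / eval (x (m + t0)) (X v))) := by
    simp only [eval_X]
    exact transcendental_cf hgen hB hJ t0
  obtain ⟨m, p, h1, h2, h3⟩ := (h J hJ hJp (FractionRing ((ℕ → ℂ) ⧸ J)) u htr).exists
  exact ⟨m + t0, p, h1, h2, h3⟩

end Pool.Agent.H58.DR
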