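import Pool.Agent.H58.DR.Base
import Pool.Graph.R_pool_sql_team_seeded_2aa45f1a.Q171.RC.Seq

/-!
Sequences of points of projective varieties given by linear recurrences along an orbit of a polynomial
map in several variables: rational curves of bounded degree, uniformly in the variety.
-/

set_option autoImplicit false

namespace Pool.Agent.H58.DR

open MvPolynomial Filter
open Pool.Agent.Y189.DD (RC)
open Pool.Agent.Y377.ST (theta_ne)
open Pool.Agent.Q1.SL
open Pool.Agent.Q171.RC (OnRat RatInG bde)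
open Pool.Agent.Q309.DU (hyper_ge)

variable {n q : ℕ}

/-- Let `k ≤ B`. If a polynomial relation of degree at most `k` between `t m` and `y m` holds for more
than `b k` of the indices `m ≤ B`, then it is an identity in `y m` for all `m ≤ B`. -/
def Free (b : ℕ → ℕ) (B : ℕ) (t : ℕ → Fin q → ℂ) (y : ℕ → ℂ) : Prop :=
  ∀ k ≤ B, ∀ Q : MvPolynomial (Fin (q + 1)) ℂ, Q.totalDegree ≤ k → ∀ W : Finset ℕ,
    b k < W.card → (∀ m ∈ W, m ≤ B ∧ eval (Fin.snoc (t m) (y m) : Fin (q + 1) → ℂ) Q = 0) →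
      ∀ m ≤ B, ∀ c, eval (Fin.snoc (t m) c : Fin (q + 1) → ℂ) Q = 0

/-- The points `x 0, ..., x B` of the projective variety of `S` are given by linear recurrences, of
order at most `r`, with coefficients which are polynomials of degree at most `e` at the points of an
orbit of a rational map of degree at most `e`, and a ratio of two of the coordinates is not algebraic
over the orbit. -/
structure DSeq (q r e : ℕ) (b : ℕ → ℕ) (S : Set (MvPolynomial (Fin (n + 1)) ℂ)) (B : ℕ)
    (x : ℕ → Fin (n + 1) → ℂ) : Prop where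
  ne : ∀ m ≤ B, x m ≠ 0
  on : ∀ m ≤ B, ∀ F ∈ S, eval (x m) F = 0
  eqn : ∃ (t : ℕ → Fin q → ℂ) (A R : Fin q → MvPolynomial (Fin q) ℂ),
    (∀ i, (A i).totalDegree ≤ e) ∧ (∀ i, (R i).totalDegree ≤ e) ∧
    (∀ m ≤ B, ∀ i, eval (t m) (R i) ≠ 0) ∧
    (∀ m ≤ B, ∀ i, t (m + 1) i = eval (t m) (A i) / eval (t m) (R i)) ∧
    (∀ j, ∃ P : ℕ → MvPolynomial (Fin q) ℂ, (∃ k ≤ r, ∃ m ≤ B, eval (t m) (P k) ≠ 0) ∧
      (∀ k, (P k).totalDegree ≤ e) ∧
      ∀ m ≤ B, ∑ k ∈ Finset.range (r + 1), eval (t m) (P k) * x (m + k) j = 0) ∧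
    ∃ u v, Free b B t fun m => x m u / x m v

/-- lifting of a polynomial -/
theorem exists_lift {θ : (ℕ → ℂ) →+* ℂ} (hsur : Function.Surjective θ)
    (hk : ∀ c : ℕ → ℂ, θ c = 0 ↔ ∀ᶠ i in (hyperfilter ℕ : Filter ℕ), c i = 0) {N : ℕ}
    (Q : MvPolynomial (Fin N) ℂ) : ∃ F : ℕ → MvPolynomial (Fin N) ℂ,
      (∀ i, (F i).totalDegree ≤ Q.totalDegree) ∧
      ∀ z : ℕ → Fin N → ℂ, θ (fun i => eval (z i) (F i)) = eval (fun j => θ fun i => z i j) Q := by
  classical
  choose c hc using fun m : Fin N →₀ ℕ => hsur (Q.coeff m)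
  let F : ℕ → MvPolynomial (Fin N) ℂ := fun i => ∑ m ∈ Q.support, monomial m (c m i)
  have hcoeff : ∀ i m, m ∈ Q.support → (F i).coeff m = c m i := by
    intro i m hm
    simp only [F, coeff_sum, coeff_monomial]
    rw [Finset.sum_ite_eq' Q.support m (fun m' => c m' i), if_pos hm]
  have hsupp : ∀ i, (F i).support ⊆ Q.support := by
    intro i m hm
    by_contra hm'
    rw [mem_support_iff] at hm
    apply hm
    simp only [F, coeff_sum, coeff_monomial]
    rw [Finset.sum_ite_eq' Q.support m (fun m' => c m' i), if_neg hm']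
  refine ⟨F, fun i => ?_, fun z => ?_⟩
  · exact Finset.sup_mono (hsupp i)
  · have h1 := eval_limT hk (T := Q.support) (F := F) (Eventually.of_forall hsupp) z
    rw [← h1]
    congr 1
    unfold limT
    conv_rhs => rw [← support_sum_monomial_coeff Q]
    refine Finset.sum_congr rfl fun m hm => ?_
    congr 1
    rw [← hc m]
    congr 1
    funext i
    exact hcoeff i m hm

theorem theta_div {θ : (ℕ → ℂ) →+* ℂ}
    (hk : ∀ c : ℕ → ℂ, θ c = 0 ↔ ∀ᶠ i in (hyperfilter ℕ : Filter ℕ), c i = 0) (f g : ℕ → ℂ) :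
    θ (fun i => f i / g i) = θ f / θ g := by
  by_cases hg : θ g = 0
  · rw [hg, div_zero, hk]
    filter_upwards [(hk g).1 hg] with i hi
    rw [hi, div_zero]
  · rw [eq_div_iff hg, ← map_mul, ← sub_eq_zero, ← map_sub, hk]
    have h1 := Ultrafilter.eventually_not.2 (fun h => hg ((hk g).2 h))
    filter_upwards [h1] with i hi
    rw [Pi.sub_apply, Pi.mul_apply, div_mul_cancel₀ _ hi, sub_self]

/-- **The limit.** -/
theorem ultra_dyn {D r e : ℕ} {b : ℕ → ℕ} {S : ℕ → Set (MvPolynomial (Fin (n + 1)) ℂ)}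
    (hS : ∀ i, ∀ F ∈ S i, ∃ e, e ≤ D ∧ F.IsHomogeneous e)
    {x : ℕ → ℕ → Fin (n + 1) → ℂ} (h : ∀ i, DSeq q r e b (S i) i (x i)) :
    ∃ d0 m : ℕ, ∀ (G : ℕ → MvPolynomial (Fin (n + 1)) ℂ) (e' : ℕ),
      (∀ᶠ i in (hyperfilter ℕ : Filter ℕ), (G i).IsHomogeneous e') →
      (¬ ∀ᶠ i in (hyperfilter ℕ : Filter ℕ), eval (x i m) (G i) = 0) →
      ∀ᶠ i in (hyperfilter ℕ : Filter ℕ), ∃ p : Fin (n + 1) → Polynomial ℂ,
        (∀ j, (p j).natDegree ≤ d0) ∧ (∀ F ∈ S i, aeval p F = 0) ∧ NonC p ∧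
          aeval p (G i) ≠ 0 := by
  classical
  choose t A R hAe hRe hR hA hPP u v hsp using fun i => (h i).eqn
  choose P hP0 hPe hPx using hPP
  obtain ⟨θ, hsur, hk⟩ := exists_theta
  have hge : ∀ N : ℕ, ∀ᶠ i in (hyperfilter ℕ : Filter ℕ), N ≤ i := by
    intro N
    have h1 : ∀ᶠ i : ℕ in cofinite, N ≤ i := by
      rw [Nat.cofinite_eq_atTop]
      exact eventually_ge_atTop N
    exact h1.filter_mono hyperfilter_le_cofinite
  have hΘ : ∀ f : ℕ → ℂ, (∃ n, ∀ i, n ≤ i → f i = 0) → θ f = 0 := by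
    rintro f ⟨N, hN⟩
    rw [hk]
    filter_upwards [hge N] with i hi
    exact hN i hi
  obtain ⟨⟨u0, v0⟩, huv⟩ : ∃ p : Fin (n + 1) × Fin (n + 1),
      ∀ᶠ i in (hyperfilter ℕ : Filter ℕ), (u i, v i) = p := by
    by_contra hcon
    push Not at hcon
    obtain ⟨i, hi⟩ := (eventually_all.2 hcon).exists
    exact hi _ rfl
  let ts : ℕ → Fin q → ℂ := fun m j => θ fun i => t i m j
  let xs : ℕ → Fin (n + 1) → ℂ := fun m j => θ fun i => x i m j
  let As : Fin q → MvPolynomial (Fin q) ℂ := fun j => limT θ (TD q e) fun i => A i j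
  let Rs : Fin q → MvPolynomial (Fin q) ℂ := fun j => limT θ (TD q e) fun i => R i j
  let Ps : Fin (n + 1) → ℕ → MvPolynomial (Fin q) ℂ := fun j k =>
    limT θ (TD q e) fun i => P i j k
  have hPs : ∀ j k m, eval (ts m) (Ps j k) = θ fun i => eval (t i m) (P i j k) := fun j k m =>
    eval_limT hk (T := TD q e) (F := fun i => P i j k)
      (Eventually.of_forall fun i => support_TD (hPe i j k)) fun i => t i m
  have hAs : ∀ j m, eval (ts m) (As j) = θ fun i => eval (t i m) (A i j) := fun j m =>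
    eval_limT hk (T := TD q e) (F := fun i => A i j)
      (Eventually.of_forall fun i => support_TD (hAe i j)) fun i => t i m
  have hRs : ∀ j m, eval (ts m) (Rs j) = θ fun i => eval (t i m) (R i j) := fun j m =>
    eval_limT hk (T := TD q e) (F := fun i => R i j)
      (Eventually.of_forall fun i => support_TD (hRe i j)) fun i => t i m
  have hRne : ∀ m j, eval (ts m) (Rs j) ≠ 0 := by
    intro m j h0
    rw [hRs, hk] at h0
    obtain ⟨i, hi1, hi2⟩ := (h0.and (hge m)).exists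
    exact hR i m hi2 j hi1
  have hts : ∀ m j, ts (m + 1) j = eval (ts m) (As j) / eval (ts m) (Rs j) := by
    intro m j
    rw [hAs, hRs, ← theta_div hk, ← sub_eq_zero]
    change θ (fun i => t i (m + 1) j) - _ = 0
    rw [← map_sub, hk]
    filter_upwards [hge m] with i hi
    rw [Pi.sub_apply, hA i m hi j, sub_self]
  have hP' : ∀ j, ∃ k ≤ r, ∃ m, eval (ts m) (Ps j k) ≠ 0 := by
    intro j
    obtain ⟨⟨k, m⟩, h1⟩ := theta_ne hΘ (fun (p : Fin (r + 1) × Fin (b e + 1)) i =>
      eval (t i p.2) (P i j p.1)) (max e (b e)) (fun i hi => by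
        have hi1 : e ≤ i := (le_max_left _ _).trans hi
        have hi2 : b e ≤ i := (le_max_right _ _).trans hi
        obtain ⟨k, hkr, m0, hm0, hne⟩ := hP0 i j
        by_contra hcon
        push Not at hcon
        apply hne
        have h2 := hsp i e hi1 (rename Fin.castSucc (P i j k))
          ((totalDegree_rename_le _ _).trans (hPe i j k)) (Finset.range (b e + 1))
          (by rw [Finset.card_range]; omega) (fun m hm => by
            have hm' := Finset.mem_range.1 hm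
            refine ⟨by omega, ?_⟩
            rw [snoc_rename]
            exact hcon (⟨k, by omega⟩, ⟨m, hm'⟩)) m0 hm0 0
        rwa [snoc_rename] at h2)
    exact ⟨k, by omega, m, by rw [hPs]; exact h1⟩
  have hrec : ∀ j m, ∑ k ∈ Finset.range (r + 1), eval (ts m) (Ps j k) * xs (m + k) j = 0 := by
    intro j m
    have h1 : ∑ k ∈ Finset.range (r + 1), eval (ts m) (Ps j k) * xs (m + k) j =
        θ (∑ k ∈ Finset.range (r + 1), (fun i => eval (t i m) (P i j k)) *
          fun i => x i (m + k) j) := by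
      rw [map_sum]
      refine Finset.sum_congr rfl fun k _ => ?_
      rw [map_mul, hPs]
    rw [h1]
    apply hΘ
    refine ⟨m, fun i hi => ?_⟩
    rw [Finset.sum_apply]
    exact hPx i j m hi
  let s : Set (MvPolynomial (Fin (n + 1)) ℂ) :=
    {F' | ∃ F : ℕ → MvPolynomial (Fin (n + 1)) ℂ,
      (∀ᶠ i in (hyperfilter ℕ : Filter ℕ), F i ∈ S i) ∧ F' = limT θ (TD (n + 1) D) F}
  have hdeg : ∀ F : ℕ → MvPolynomial (Fin (n + 1)) ℂ,
      (∀ᶠ i in (hyperfilter ℕ : Filter ℕ), F i ∈ S i) → ∃ e', e' ≤ D ∧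
        ∀ᶠ i in (hyperfilter ℕ : Filter ℕ), (F i).IsHomogeneous e' := fun F hF =>
    exists_deg (D := D) (by
      filter_upwards [hF] with i hi
      exact hS i _ hi)
  have hs : ∀ G ∈ s, ∃ d, G.IsHomogeneous d := by
    rintro _ ⟨F, hF, rfl⟩
    obtain ⟨e', -, he'⟩ := hdeg F hF
    exact ⟨e', limT_homog hk he'⟩
  have hX : ∀ m, ∀ G ∈ s, eval (xs m) G = 0 := by
    rintro m _ ⟨F, hF, rfl⟩
    obtain ⟨e', he'D, he'⟩ := hdeg F hF
    have h1 := eval_limT hk (T := TD (n + 1) D) (F := F) (by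
      filter_upwards [he'] with i hi
      exact support_hom hi he'D) fun i => x i m
    change eval (fun j => θ fun i => x i m j) _ = 0
    rw [h1, hk]
    filter_upwards [hF, hge m] with i hi hmi
    exact (h i).on m hmi _ hi
  have hgen : GenY ts fun m => xs m u0 / xs m v0 := by
    intro Q h1 m0 c
    rw [Nat.frequently_atTop_iff_infinite] at h1
    obtain ⟨W, hW, hWc⟩ := h1.exists_subset_card_eq (b Q.totalDegree + 1)
    obtain ⟨F, hF1, hF3⟩ := exists_lift hsur hk Q
    have h2 : ∀ m ∈ W, ∀ᶠ i in (hyperfilter ℕ : Filter ℕ),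
        eval (Fin.snoc (t i m) (x i m (u i) / x i m (v i)) : Fin (q + 1) → ℂ) (F i) = 0 := by
      intro m hm
      rw [← hk, hF3 fun i => (Fin.snoc (t i m) (x i m (u i) / x i m (v i)) : Fin (q + 1) → ℂ)]
      have h3 : (fun j => θ fun i =>
          (Fin.snoc (t i m) (x i m (u i) / x i m (v i)) : Fin (q + 1) → ℂ) j) =
            (Fin.snoc (ts m) (xs m u0 / xs m v0) : Fin (q + 1) → ℂ) := by
        funext j
        refine Fin.lastCases ?_ (fun j => ?_) j
        · simp only [Fin.snoc_last]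
          rw [← theta_div hk, ← sub_eq_zero, ← map_sub, hk]
          filter_upwards [huv] with i hi
          rw [Pi.sub_apply, (Prod.mk.inj hi).1, (Prod.mk.inj hi).2, sub_self]
        · simp only [Fin.snoc_castSucc]
          rfl
      rw [h3]
      exact hW hm
    obtain ⟨cs, hcs⟩ := hsur c
    have h4 : eval (Fin.snoc (ts m0) c : Fin (q + 1) → ℂ) Q =
        θ fun i => eval (Fin.snoc (t i m0) (cs i) : Fin (q + 1) → ℂ) (F i) := by
      rw [hF3 fun i => (Fin.snoc (t i m0) (cs i) : Fin (q + 1) → ℂ)]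
      congr 2
      funext j
      refine Fin.lastCases ?_ (fun j => ?_) j
      · simp only [Fin.snoc_last]
        exact hcs.symm
      · simp only [Fin.snoc_castSucc]
        rfl
    rw [h4, hk]
    filter_upwards [(Filter.eventually_all_finset W).2 h2, hge Q.totalDegree, hge (W.sup id),
      hge m0] with i hi1 hi2 hi3 hi4
    exact hsp i Q.totalDegree hi2 (F i) (hF1 i) W (by omega) (fun m hm =>
      ⟨(Finset.le_sup (f := id) hm).trans hi3, hi1 m hm⟩) m0 hi4 (cs i)
  obtain ⟨m, p, hp1, hp2, hp3⟩ := seq_rc hRne hts hs hP' hrec hX hgen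
  refine ⟨Finset.univ.sup fun j => (p j).natDegree, m, fun G e' hG hGne => ?_⟩
  have hev := eval_limT hk (T := TD (n + 1) e') (F := G) (by
    filter_upwards [hG] with i hi
    exact support_hom hi le_rfl) fun i => x i m
  have hne : aeval p (limT θ (TD (n + 1) e') G) ≠ 0 := by
    intro h0
    apply hGne
    rw [← hk, ← hev]
    have h1 := congrArg (Polynomial.eval 1) h0
    rw [Polynomial.eval_zero, poly_eval, hp2] at h1
    exact h1
  obtain ⟨j, k, u', v', huv'⟩ := hp3
  have hnc : NonC p := ⟨u', v', j, k, huv'⟩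
  have h1 := los_curve hsur hk p
    (fun j => Finset.le_sup (f := fun j => (p j).natDegree) (Finset.mem_univ j)) hnc
    (S := S) (T := TD (n + 1) D) (fun i F hF => by
      obtain ⟨e1, he1, he1'⟩ := hS i F hF
      exact support_hom he1' he1)
    (fun F hF => hp1 _ ⟨F, hF, rfl⟩) (T' := TD (n + 1) e') (G := G) (by
      filter_upwards [hG] with i hi
      exact support_hom hi le_rfl) hne
  filter_upwards [h1] with i hi
  obtain ⟨p', hq1, hq2, hq3, hq4, -⟩ := hi
  exact ⟨p', hq1, hq2, hq3, hq4⟩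

/-- **Sequences.** One of the points `x 0, ..., x d` lies on a rational curve of degree at most `d`. -/
theorem dyn_strong (n D q r e : ℕ) (b : ℕ → ℕ) : ∃ d : ℕ,
    ∀ S : Set (MvPolynomial (Fin (n + 1)) ℂ), (∀ F ∈ S, ∃ e, e ≤ D ∧ F.IsHomogeneous e) →
      ∀ x : ℕ → Fin (n + 1) → ℂ, DSeq q r e b S d x → ∃ m ≤ d, OnRat S d (x m) := by
  classical
  by_contra hcon
  push Not at hcon
  choose S hS x hx hno using hcon
  obtain ⟨d0, m, hm⟩ := ultra_dyn hS hx
  obtain ⟨e0, he0⟩ := bde (n + 1) D d0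
  have hG' : ∀ i, ∃ G' : MvPolynomial (Fin (n + 1)) ℂ, max d0 m ≤ i →
      (∃ e, e ≤ e0 ∧ G'.IsHomogeneous e) ∧ RatInG (S i) d0 G' ∧ eval (x i m) G' ≠ 0 := by
    intro i
    by_cases hi : max d0 m ≤ i
    · have hi1 : d0 ≤ i := (le_max_left _ _).trans hi
      have hi2 : m ≤ i := (le_max_right _ _).trans hi
      obtain ⟨G', h1⟩ := he0 (S i) (hS i) (x i m) ((hx i).ne m hi2) fun h =>
        hno i m hi2 (h.mono' hi1)
      exact ⟨G', fun _ => h1⟩
    · exact ⟨0, fun h => absurd h hi⟩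
  choose G' hG' using hG'
  obtain ⟨e', -, hhe⟩ := exists_deg (F := G') (D := e0) (by
    filter_upwards [hyper_ge (max d0 m)] with i hi
    exact (hG' i hi).1)
  have h1 := hm G' e' hhe (fun h0 => by
    obtain ⟨i, hi1, hi2⟩ := (h0.and (hyper_ge (max d0 m))).exists
    exact (hG' i hi2).2.2 hi1)
  obtain ⟨i, ⟨p, hp1, hp2, hp3, hp4⟩, hi⟩ := (h1.and (hyper_ge (max d0 m))).exists
  exact hp4 ((hG' i hi).2.1 p hp3 hp1 hp2)

end Pool.Agent.H58.DR
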